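import Pool.Agent.Results.MP_34c5b1_gt.NotImage

/-!
# A bisequential compactum, first countable off one point, and countably compact sources

There is a separable scattered bisequential compactum of cardinality at most the continuum which is
first countable at all points but one and which is not a continuous image of any first countable
countably compact space; such a space has no continuous map onto a dense subset of it either.

The space is the closure of the set of the natural numbers in the compactum `Pt` of the starting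
file `NotImage` (the one-point compactification of a Mrowka space). New here: the compactness of the
source is replaced by countable compactness, without separation axioms; the space is cut down to a
separable one; and its local structure is determined.
-/

set_option autoImplicit false
set_option linter.all false

open Set Filter Topology

namespace Pool.Agent.Results.MP_34c5b1_gt.CountablyCompactSource

open Pool.Agent.Results.MP_34c5b1_gt.NotImage

/-- every sequence has a cluster point -/
def CountablyCompact (Z : Type*) [TopologicalSpace Z] : Prop :=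
  ∀ u : ℕ → Z, ∃ z : Z, MapClusterPt z atTop u

theorem countablyCompact_of_space (Z : Type*) [TopologicalSpace Z] [CountablyCompactSpace Z] :
    CountablyCompact Z := by
  intro u
  obtain ⟨a, -, ha⟩ := (CountablyCompactSpace.isCountablyCompact_univ (E := Z)).seq_clusterPt u
    (Eventually.of_forall fun _ => mem_univ _)
  exact ⟨a, ha⟩

/-- `X` is scattered: every non-empty subset has a relatively isolated point. -/
def Scattered (X : Type*) [TopologicalSpace X] : Prop :=
  ∀ S : Set X, S.Nonempty → ∃ x ∈ S, ∃ U : Set X, IsOpen U ∧ U ∩ S = {x}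

section image

universe u

variable {Z : Type u} [TopologicalSpace Z] [FirstCountableTopology Z]

theorem not_full {f : Z → Pt} (hf : Continuous f) {e : ℕ → Z} (he : ∀ n, f (e n) = Pt.nat n)
    (z : M0) (p : Z) : ¬ Full e z p := by
  intro hfull
  obtain ⟨B, hB⟩ := (𝓝 p).exists_antitone_basis
  obtain ⟨w, hw⟩ := φ_surj fun k => {n | e n ∈ B k}
  have hanti : Antitone (φ w) := by
    rw [hw]; intro a b hab n hn; exact hB.antitone hab hn
  have hacc : Acc (z, w) := by
    refine ⟨hanti, fun k => ?_⟩
    obtain ⟨n, hn, h1, h2, h3⟩ := hfull (B k) (hB.mem k) k w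
    refine ⟨n, hn, h2, h3, ?_⟩
    change n ∈ φ w k
    rw [hw]; exact h1
  have hV : ∀ m k, ∃ n ≥ k, n ∈ D (z, w) ∧ e n ∈ B m := by
    intro m k
    obtain ⟨n, hn, h1, h2⟩ := D_inf hacc m k
    change n ∈ φ w m at h2
    rw [hw] at h2
    exact ⟨n, hn, h1, h2⟩
  have h1 : f p ∈ blk (z, w) := by
    by_contra hcon
    have h2 : f ⁻¹' (blk (z, w))ᶜ ∈ 𝓝 p :=
      ((isClopen_blk (z, w)).compl.isOpen.preimage hf).mem_nhds hcon
    obtain ⟨m, hm⟩ := hB.mem_iff.1 h2
    obtain ⟨n, -, hn1, hn2⟩ := hV m 0
    exact hm hn2 (by rw [he]; exact Or.inr ⟨n, hn1, rfl⟩)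
  have h2 : f ⁻¹' (blk (z, w)) ∈ 𝓝 p := ((isClopen_blk (z, w)).isOpen.preimage hf).mem_nhds h1
  obtain ⟨m, hm⟩ := hB.mem_iff.1 h2
  obtain ⟨N, hN⟩ := D_conv (z, w) 1
  obtain ⟨n, hn, hn1, -, hn3⟩ := hfull (B m) (hB.mem m) (N + 1) (fun i => !(w i))
  have h3 : f (e n) ∈ blk (z, w) := hm hn1
  rw [he] at h3
  rcases h3 with h3 | ⟨n', hn', h3⟩
  · cases h3
  · injection h3 with h4
    subst h4
    have h5 := (hN n hn' (by omega)).2 0 (by omega)
    have h6 := hn3 0 (by omega)
    change z n 0 = w 0 at h5
    rw [h5] at h6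
    simp at h6

theorem exists_uniform (hZ : CountablyCompact Z) {f : Z → Pt} (hf : Continuous f) {e : ℕ → Z}
    (he : ∀ n, f (e n) = Pt.nat n) (z : M0) : ∃ k, ∀ q : Z, ∃ G ∈ 𝓝 q, ∃ w, ∀ n ≥ k, e n ∈ G →
    eq0 k (h n) z → ¬ eq1 k (z n) w := by
  by_contra hcon
  push Not at hcon
  choose q hq using hcon
  obtain ⟨p, hp⟩ := hZ q
  apply not_full hf he z p
  intro G hG k w
  have h1 := (mapClusterPt_iff_frequently.1 hp) (interior G) (interior_mem_nhds.2 hG)
  rw [frequently_atTop] at h1
  obtain ⟨m, hm, hqm⟩ := h1 k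
  obtain ⟨n, hn, h2, h3, h4⟩ := hq m G (mem_interior_iff_mem_nhds.1 hqm) w
  exact ⟨n, le_trans hm hn, h2, h3.mono hm, h4.mono hm⟩

theorem exists_cluster (hZ : CountablyCompact Z) (e : ℕ → Z) (k : ℕ) (z : M0) :
    ∃ q : Z, ∀ G ∈ 𝓝 q, ∀ m, ∃ n ≥ m, e n ∈ G ∧ eq0 k (h n) z := by
  choose ν hν1 hν2 using fun m => h_spec z k m
  obtain ⟨q, hq⟩ := hZ fun m => e (ν m)
  refine ⟨q, fun G hG m => ?_⟩
  have h1 := (mapClusterPt_iff_frequently.1 hq) G hG
  rw [frequently_atTop] at h1
  obtain ⟨m', hm', h2⟩ := h1 m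
  exact ⟨ν m', le_trans hm' (hν1 m'), h2, hν2 m'⟩

theorem image_false (hZ : CountablyCompact Z) {f : Z → Pt} (hf : Continuous f) {e : ℕ → Z}
    (he : ∀ n, f (e n) = Pt.nat n) : False := by
  choose q hq using fun p : ℕ × ℕ => exists_cluster hZ e p.1 (h p.2)
  choose B hB using fun p : ℕ × ℕ => (𝓝 (q p)).exists_antitone_basis
  let V : (ℕ × ℕ) → ℕ → Set ℕ := fun p j => {n | p.1 ≤ n ∧ e n ∈ B p j ∧ eq0 p.1 (h n) (h p.2)}
  have hV : ∀ p j m, ∃ n ≥ m, n ∈ V p j := by
    intro p j m
    obtain ⟨n, hn, h1, h2⟩ := hq p (B p j) ((hB p).mem j) (max m p.1)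
    exact ⟨n, (le_max_left _ _).trans hn, (le_max_right _ _).trans hn, h1, h2⟩
  have hdense : Dense (⋂ c : (ℕ × ℕ) × ℕ × ℕ,
      {z : M0 | ∃ n ∈ V c.1 c.2.1, eq1 c.1.1 (z n) (h c.2.2 0)}) :=
    dense_iInter_of_isOpen (fun c => (dense_open (hV c.1 c.2.1) _ _).1)
      (fun c => (dense_open (hV c.1 c.2.1) _ _).2)
  obtain ⟨z, hz⟩ := hdense.nonempty
  rw [mem_iInter] at hz
  obtain ⟨k, hk⟩ := exists_uniform hZ hf he z
  obtain ⟨i, -, hi⟩ := h_spec z k 0
  obtain ⟨G, hG, w, hw⟩ := hk (q (k, i))
  obtain ⟨j, hj⟩ := (hB (k, i)).mem_iff.1 hG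
  obtain ⟨l, -, hl⟩ := h_spec (fun _ => w) (k + 1) 0
  have hl' : eq1 k (h l 0) w := (hl 0 (by omega)).mono (by omega)
  obtain ⟨n, ⟨hn1, hn2, hn3⟩, hn4⟩ := hz ((k, i), j, l)
  exact hw n hn1 (hj hn2) (hn3.trans hi) (hn4.trans hl')

end image

/-! ### The separable space -/

/-- the closure of the set of the natural numbers -/
def XX : Set Pt := closure (range Pt.nat)

/-- bisequentiality passes to subspaces -/
theorem bisequential_subtype {X : Type*} [TopologicalSpace X] (hX : Bisequential X) (S : Set X) :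
    Bisequential S := by
  intro η x hη
  obtain ⟨A, hA1, hA2⟩ := hX (η.map Subtype.val) x.1 (by
    intro P hP
    have h1 := hη _ hP
    rw [closure_subtype] at h1
    exact closure_mono (by rintro _ ⟨y, hy, rfl⟩; exact hy) h1)
  refine ⟨fun n => Subtype.val ⁻¹' A n, ?_, ?_⟩
  · intro O hO
    rw [mem_nhds_subtype] at hO
    obtain ⟨O', hO', hsub⟩ := hO
    obtain ⟨m, hm⟩ := hA1 O' hO'
    exact ⟨m, fun n hn => (preimage_mono (hm n hn)).trans hsub⟩
  · intro n P hP
    obtain ⟨y, hy1, ⟨y', hy', rfl⟩⟩ := hA2 n (Subtype.val '' P) (image_mem_map hP)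
    exact ⟨y', hy1, hy'⟩

theorem inf_notMem_blk (y : M0 × M1) : Pt.inf ∉ blk y := by
  rintro (h4 | ⟨n, hn, h4⟩) <;> cases h4

theorem scattered_Pt (S : Set Pt) (hS : S.Nonempty) :
    ∃ x ∈ S, ∃ U : Set Pt, IsOpen U ∧ U ∩ S = {x} := by
  by_cases h1 : ∃ n, Pt.nat n ∈ S
  · obtain ⟨n, hn⟩ := h1
    refine ⟨Pt.nat n, hn, {Pt.nat n}, isOpen_nat n, ?_⟩
    ext x
    simp only [mem_inter_iff, mem_singleton_iff]
    constructor
    · exact fun h => h.1
    · rintro rfl; exact ⟨rfl, hn⟩
  · push Not at h1
    by_cases h2 : ∃ y, Pt.idx y ∈ S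
    · obtain ⟨y, hy⟩ := h2
      refine ⟨Pt.idx y, hy, blk y, (isClopen_blk y).isOpen, ?_⟩
      ext x
      simp only [mem_inter_iff, mem_singleton_iff]
      constructor
      · rintro ⟨h3 | ⟨n, hn, h3⟩, h4⟩
        · exact h3
        · rw [h3] at h4
          exact (h1 n h4).elim
      · rintro rfl; exact ⟨Or.inl rfl, hy⟩
    · push Not at h2
      obtain ⟨x, hx⟩ := hS
      have h3 : ∀ x' ∈ S, x' = Pt.inf := by
        rintro (_ | n | y) hx'
        · rfl
        · exact (h1 n hx').elim
        · exact (h2 y hx').elim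
      refine ⟨x, hx, univ, isOpen_univ, ?_⟩
      ext x'
      simp only [univ_inter, mem_singleton_iff]
      constructor
      · intro h; rw [h3 x' h, h3 x hx]
      · rintro rfl; exact hx

theorem scattered_subtype (S : Set Pt) : Scattered S := by
  intro T hT
  obtain ⟨x, ⟨x', hx', rfl⟩, U, hU, hUT⟩ := scattered_Pt (Subtype.val '' T) (hT.image _)
  refine ⟨x', hx', Subtype.val ⁻¹' U, hU.preimage continuous_subtype_val, ?_⟩
  ext y
  simp only [mem_inter_iff, mem_preimage, mem_singleton_iff]
  constructor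
  · rintro ⟨h1, h2⟩
    have h3 : (y : Pt) ∈ U ∩ Subtype.val '' T := ⟨h1, mem_image_of_mem _ h2⟩
    rw [hUT] at h3
    exact Subtype.ext h3
  · rintro rfl
    have h3 : ((y : Pt)) ∈ U ∩ Subtype.val '' T := by rw [hUT]; rfl
    exact ⟨h3.1, hx'⟩

theorem nhds_nat (n : ℕ) : (𝓝 (Pt.nat n)).IsCountablyGenerated := by
  have h1 : 𝓝 (Pt.nat n) = pure (Pt.nat n) :=
    (isOpen_singleton_iff_nhds_eq_pure (Pt.nat n)).1 (isOpen_nat n)
  rw [h1]
  infer_instance

theorem nhds_idx (y : M0 × M1) : (𝓝 (Pt.idx y)).IsCountablyGenerated := by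
  have hx' := (le_nhds_iff (𝓝 (Pt.idx y)) (Pt.idx y)).1 le_rfl
  let A : ℕ → Set Pt := fun k => {x | x ∈ blk y ∧ ∀ n ∈ {n | n < k}, x ≠ Pt.nat n}
  have hA : ∀ k, A k ∈ 𝓝 (Pt.idx y) := by
    intro k
    have h2 : ∀ᶠ x in 𝓝 (Pt.idx y), ∀ n ∈ {n | n < k}, x ≠ Pt.nat n := by
      refine (Filter.eventually_all_finite (Set.finite_lt_nat k)).2 fun n _ => ?_
      filter_upwards [hx'.1 n] with x hx1 hx2
      cases hx1.1 hx2
    filter_upwards [hx'.2 y, h2] with x a b
    exact ⟨a.2 (Or.inl rfl), b⟩
  have hconv : ∀ O ∈ 𝓝 (Pt.idx y), ∃ m, ∀ n ≥ m, A n ⊆ O := by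
    apply converges
    · rintro a b hab x ⟨h1, h4⟩
      exact ⟨h1, fun n hn => h4 n (lt_of_lt_of_le hn hab)⟩
    · intro n
      refine ⟨n + 1, fun x' hx' => ⟨fun h => ?_, fun h => ?_⟩⟩
      · exact (hx'.2 n (Nat.lt_succ_self n) h).elim
      · cases h
    · intro y'
      by_cases hyy : y = y'
      · subst hyy
        exact ⟨0, fun x' hx' => ⟨fun _ => Or.inl rfl, fun _ => hx'.1⟩⟩
      · obtain ⟨N, hN⟩ := D_disj hyy
        refine ⟨N, fun x' hx' => ⟨fun h => ?_, fun h => ?_⟩⟩
        · exfalso
          rcases hx'.1 with h5 | ⟨m, hm, h5⟩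
          · subst h5
            rcases h with h6 | ⟨m', -, h6⟩
            · injection h6 with h7
              exact hyy h7
            · cases h6
          · subst h5
            rcases h with h6 | ⟨m', hm', h6⟩
            · cases h6
            · injection h6 with h7
              subst h7
              have h8 : N ≤ m := by
                by_contra hlt
                exact hx'.2 m (not_le.1 hlt) rfl
              exact hN m h8 hm hm'
        · exfalso
          rcases h with h6 | ⟨m', -, h6⟩
          · injection h6 with h7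
            exact hyy h7
          · cases h6
  refine isCountablyGenerated_of_seq ⟨A, le_antisymm ?_ ?_⟩
  · exact le_iInf fun k => le_principal_iff.2 (hA k)
  · intro O hO
    obtain ⟨m, hm⟩ := hconv O hO
    exact mem_of_superset (mem_iInf_of_mem m (mem_principal_self _)) (hm m le_rfl)

theorem nhds_ne_inf (x : Pt) (hx : x ≠ Pt.inf) : (𝓝 x).IsCountablyGenerated := by
  rcases x with _ | n | y
  · exact (hx rfl).elim
  · exact nhds_nat n
  · exact nhds_idx y

/-- **A bisequential compactum which is not an image of first countable countably compact spaces.**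
There is a compact Hausdorff space `X` of cardinality at most the continuum which is bisequential,
separable, scattered and first countable at all points except possibly one point, such that no
continuous map from a first countable countably compact space (no separation axiom is needed) to
`X` has a dense range; in particular `X` is not a continuous image of such a space. -/
theorem result.{u} : ∃ (X : Type) (_ : TopologicalSpace X), CompactSpace X ∧ T2Space X ∧
    Bisequential X ∧ Cardinal.mk X ≤ Cardinal.continuum ∧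
    TopologicalSpace.SeparableSpace X ∧ Scattered X ∧
    (∃ p : X, ∀ x : X, x ≠ p → (𝓝 x).IsCountablyGenerated) ∧
    ∀ (Z : Type u) [TopologicalSpace Z] [FirstCountableTopology Z] [CountablyCompactSpace Z]
      (f : Z → X), Continuous f → ¬ DenseRange f ∧ ¬ Function.Surjective f := by
  have hsub : ∀ n, Pt.nat n ∈ XX := fun n => subset_closure (mem_range_self n)
  refine ⟨XX, inferInstance, isCompact_iff_compactSpace.1 isClosed_closure.isCompact,
    inferInstance, bisequential_subtype bisequential XX, ?_, ?_, scattered_subtype XX, ?_, ?_⟩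
  · exact (Cardinal.mk_le_of_injective Subtype.val_injective).trans card_le
  · refine ⟨⟨range fun n => (⟨Pt.nat n, hsub n⟩ : XX), countable_range _, ?_⟩⟩
    intro x
    rw [closure_subtype]
    have h1 : Subtype.val '' (range fun n => (⟨Pt.nat n, hsub n⟩ : XX)) = range Pt.nat := by
      rw [← range_comp]
      rfl
    rw [h1]
    exact x.2
  · have key : ∀ x : XX, x.1 ≠ Pt.inf → (𝓝 x).IsCountablyGenerated := by
      intro x hx
      have := nhds_ne_inf x.1 hx
      rw [nhds_subtype]
      infer_instance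
    by_cases hinf : Pt.inf ∈ XX
    · exact ⟨⟨Pt.inf, hinf⟩, fun x hx => key x fun h => hx (Subtype.ext h)⟩
    · exact ⟨⟨Pt.nat 0, hsub 0⟩, fun x _ => key x fun h => hinf (h ▸ x.2)⟩
  · intro Z _ _ _ f hf
    have hZ := countablyCompact_of_space Z
    have hd : ¬ DenseRange f := by
      intro hd
      have h1 : ∀ n, ∃ z, f z = (⟨Pt.nat n, hsub n⟩ : XX) := by
        intro n
        have hop : IsOpen ({(⟨Pt.nat n, hsub n⟩ : XX)} : Set XX) := by
          have h2 := (isOpen_nat n).preimage (continuous_subtype_val (p := (· ∈ XX)))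
          convert h2 using 1
          ext x
          simp only [mem_singleton_iff, mem_preimage]
          exact Subtype.ext_iff
        obtain ⟨z, hz⟩ := hd.exists_mem_open hop (singleton_nonempty _)
        exact ⟨z, hz⟩
      choose e he using h1
      exact image_false hZ (continuous_subtype_val.comp hf) (e := e)
        (fun n => by simp only [Function.comp_apply, he])
    exact ⟨hd, fun hs => hd hs.denseRange⟩

end Pool.Agent.Results.MP_34c5b1_gt.CountablyCompactSource
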